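import Pool.Agent.Results.MP_5bbf46_al.FreeSemigroup
import Pool.Agent.Y35.PV.QV.Pd
import Pool.Agent.Y35.PV.QV.Hf
import Pool.Agent.Y35.PV.QV.Mon

set_option autoImplicit false

/-!
# Free semigroups of classes of groups closed under subgroups, products and reduced products

Let `𝒰` be any class of filters. The classes of groups which are closed under subgroups, cartesian
products and reduced products modulo the filters in `𝒰`, and which satisfy a non-trivial identity,
form a free semigroup under multiplication of classes. If `𝒰` is empty these are all classes closed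
under subgroups and products (prevarieties), if `𝒰` is the class of the ultrafilters these are the
quasivarieties (Malcev). Moreover a product of such prevarieties is closed under the reduced
products modulo the filters in `𝒰` if and only if each factor is, and it is a variety if and only if
each factor is. So the free generators of all these semigroups are the indecomposable prevarieties
which belong to the semigroup.
-/

namespace Pool.Agent.Results.MP_5bbf46_al.FreeSemigroupsOfClasses

open Pool.Agent.Y35.PV.QV Pool.Agent.Y35.PV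
open Pool.Agent.Results.MP_5bbf46_al.FreeSemigroup (GroupClass IsQuasivariety SatisfiesIdentity
  product trivialClass)

/-- The classes of groups which are closed under subgroups (and isomorphic groups), cartesian
products and reduced products modulo filters in `𝒰`, and which satisfy a non-trivial identity. -/
def CVar (𝒰 : FF) : Type 1 := {X : GroupClass // Closed 𝒰 X ∧ SatisfiesIdentity X}

variable {𝒰 : FF}

lemma product_mem {X Y : GroupClass} (hX : Closed 𝒰 X ∧ SatisfiesIdentity X)
    (hY : Closed 𝒰 Y ∧ SatisfiesIdentity Y) :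
    Closed 𝒰 (product X Y) ∧ SatisfiesIdentity (product X Y) := by
  have h1 := id hX.1
  have h2 := id hY.1
  refine ⟨id (QV.closed_mulCls h1 h2), ?_⟩
  obtain ⟨u, hu, hu1⟩ := hX.2
  obtain ⟨v, hv, hv1⟩ := hY.2
  exact ⟨QV.sbs v u, QV.sbs_ne hu hv, QV.sat_mul h1 h2 hu1 hv1⟩

lemma trivial_mem : Closed 𝒰 trivialClass ∧ SatisfiesIdentity trivialClass := by
  refine ⟨id QV.closed_oneCls, FreeGroup.of 0, FreeGroup.of_ne_one 0, ?_⟩
  intro G _ hG φ
  exact hG _

/-- Multiplication of classes; the class of the trivial groups is the identity element. -/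
instance : Monoid (CVar 𝒰) where
  mul X Y := ⟨product X.1 Y.1, product_mem X.2 Y.2⟩
  one := ⟨trivialClass, trivial_mem⟩
  mul_assoc X Y Z := by
    apply Subtype.ext
    funext G i
    exact propext (QV.mulCls_assoc (id X.2.1) (id Y.2.1)
      (id Z.2.1))
  one_mul X := by
    apply Subtype.ext
    funext G i
    exact propext (QV.one_mulCls (id X.2.1))
  mul_one X := by
    apply Subtype.ext
    funext G i
    exact propext (QV.mulCls_one (id X.2.1))

lemma mul_iff (X Y : (CVar 𝒰)) (G : Type) [Group G] :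
    (X * Y).1 G ↔ ∃ (N : Subgroup G) (_ : N.Normal), X.1 N ∧ Y.1 (G ⧸ N) := Iff.rfl

lemma one_iff (G : Type) [Group G] : (1 : (CVar 𝒰)).1 G ↔ ∀ g : G, g = 1 := Iff.rfl

/-- the length of a shortest non-trivial identity -/
noncomputable def len (X : (CVar 𝒰)) : ℕ :=
  sInf {n | ∃ l : List (ℕ × Bool), l.length = n ∧ FreeGroup.mk l ≠ 1 ∧
    QV.Sat X.1 (FreeGroup.mk l)}

lemma len_spec (X : (CVar 𝒰)) : ∃ l : List (ℕ × Bool), l.length = len X ∧ FreeGroup.mk l ≠ 1 ∧
    QV.Sat X.1 (FreeGroup.mk l) := by
  classical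
  obtain ⟨w, hw, hs⟩ := X.2.2
  have hne : {n | ∃ l : List (ℕ × Bool), l.length = n ∧ FreeGroup.mk l ≠ 1 ∧
    QV.Sat X.1 (FreeGroup.mk l)}.Nonempty :=
    ⟨w.toWord.length, w.toWord, rfl, by rwa [FreeGroup.mk_toWord], by
      rw [FreeGroup.mk_toWord]; exact hs⟩
  exact Nat.sInf_mem hne

lemma len_lt (X Y : (CVar 𝒰)) (hY : Y ≠ 1) : len X < len (X * Y) := by
  have hXc := id X.2.1
  have hYc := id Y.2.1
  have h1 : ∃ (B : Type) (_ : Group B), Y.1 B ∧ ¬ QV.oneCls B := by
    by_contra hcon
    push Not at hcon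
    apply hY
    apply Subtype.ext
    funext G i
    exact propext ⟨fun h => hcon G i h, fun h => hYc.triv h⟩
  obtain ⟨B, iB, hB, hB'⟩ := h1
  obtain ⟨l, hl, hl1, hl2⟩ := len_spec (X * Y)
  obtain ⟨l₀, h2, h3, h4⟩ := QV.shorter hXc hYc (QV.closed_mulCls hXc hYc) QV.closed_oneCls
    (fun G _ h => (QV.mulCls_one (QV.closed_mulCls hXc hYc)).2 h) hB hB' l hl1 hl2
  have h5 : len X ≤ l₀.length := Nat.sInf_le ⟨l₀, rfl, h3, h4⟩
  omega

lemma equidivisible (a b c d : (CVar 𝒰)) (h : a * b = c * d) :
    (∃ z, a = c * z ∧ d = z * b) ∨ (∃ z, c = a * z ∧ b = z * d) := by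
  have ha := id a.2.1
  have hb := id b.2.1
  have hc := id c.2.1
  have hd := id d.2.1
  obtain ⟨wa, hwa, hsa⟩ := a.2.2
  obtain ⟨wb, hwb, hsb⟩ := b.2.2
  obtain ⟨wc, hwc, hsc⟩ := c.2.2
  obtain ⟨wd, hwd, hsd⟩ := d.2.2
  have hEq : ∀ (G : Type) [Group G], QV.mulCls a.1 b.1 G ↔ QV.mulCls c.1 d.1 G := by
    intro G _
    have : (a * b).1 G ↔ (c * d).1 G := by rw [h]
    exact this
  rcases QV.comparable ha hb hc hd hwa hwc hsa hsc hEq with hle | hle
  · obtain ⟨Z, hZ, hZd, h1, h2⟩ := QV.equidiv ha hb hc hd hwb hwc hsb hsc hEq hle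
    refine Or.inl ⟨⟨Z, id hZ, wd, hwd, fun G _ hG => hsd G (hZd G hG)⟩, ?_, ?_⟩
    · apply Subtype.ext
      funext G i
      exact propext (h1 G)
    · apply Subtype.ext
      funext G i
      exact propext (h2 G)
  · obtain ⟨Z, hZ, hZb, h1, h2⟩ := QV.equidiv hc hd ha hb hwd hwa hsd hsa
      (fun G _ => (hEq G).symm) hle
    refine Or.inr ⟨⟨Z, id hZ, wb, hwb, fun G _ hG => hsb G (hZb G hG)⟩, ?_, ?_⟩
    · apply Subtype.ext
      funext G i
      exact propext (h1 G)
    · apply Subtype.ext
      funext G i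
      exact propext (h2 G)


/-- The ultrafilters. -/
def ultrafilters : FF := fun ι F => ∃ U : Ultrafilter ι, (U : Filter ι) = F

/-- The empty class of filters. -/
def noFilters : FF := fun _ _ => False

/-- Quasivarieties are the classes closed under subgroups, products and ultraproducts. -/
theorem quasi_iff (X : GroupClass) : IsQuasivariety X ↔ Closed ultrafilters X := by
  rw [FreeSemigroup.isQuasivariety_iff]
  constructor
  · intro h
    refine ⟨h.inj, h.pi, ?_⟩
    rintro ι _ ⟨U, rfl⟩ G _ hG
    exact h.up U G hG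
  · intro h
    refine ⟨h.inj, h.pi, ?_⟩
    intro ι U G _ hG
    exact h.up (U : Filter ι) ⟨U, rfl⟩ G hG

/-- A left factor has the closure properties of the product. -/
theorem left_factor {𝒱 : FF} {X Y : Cls} (hX : Closed 𝒰 X) (hY : Closed 𝒰 Y)
    {w : FreeGroup ℕ} (hw : w ≠ 1) (hs : QV.Sat Y w) (hP : Closed 𝒱 (mulCls X Y)) :
    Closed 𝒱 X := by
  obtain ⟨C, iC, D, hPr⟩ := exists_pr hY hw hs
  have hPU := closed_mulCls hX hY
  have hle : ∀ (G : Type) [Group G], Y G → mulCls X Y G := by
    intro G _ hG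
    rw [mulCls_iff hX hY]
    have h1 : res Y G = ⊥ := by
      rw [eq_bot_iff]
      intro g hg
      exact hg G hG (MonoidHom.id G)
    apply hX.triv
    rintro ⟨g, hg⟩
    rw [h1] at hg
    exact Subtype.ext hg
  have hXY : ∀ (G : Type) [Group G], mulCls X Y G ↔ mulCls oneCls (mulCls X Y) G :=
    fun G _ => (one_mulCls hPU).symm
  have hc : ∀ {G A : Type} [Group G] [Group A], mulCls X Y G → Y A →
      mulCls X Y (Wr (res Y G) A) :=
    fun hG hA => claim21 hX hY closed_oneCls hPU hXY hle hPr (FreeGroup.of_ne_one 0)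
      (fun G _ hG φ => hG _) hG hA
  have hZ : Closed 𝒱 (quoCls Y (mulCls X Y)) :=
    closed_quoCls hP hPr (fun G _ hG => hc hG hPr.1)
  have heq : ∀ (H : Type) [Group H], X H ↔ quoCls Y (mulCls X Y) H := by
    intro H _
    constructor
    · intro hH
      refine ⟨Wr H C, inferInstance, MonoidHom.mk' (fun h => ⟨dg D h, dg_mem hPr h⟩) ?_,
        wr_mem hX hY hH hPr.1, ?_⟩
      · intro a b
        apply Subtype.ext
        exact dg_mul D a b
      · intro a b hab
        exact dg_inj hPr.2.1 (congrArg Subtype.val hab)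
    · rintro ⟨G, iG, f, hG, hf⟩
      exact hX.inj f hf ((mulCls_iff hX hY).1 hG)
  have : X = quoCls Y (mulCls X Y) := by
    funext H i
    exact propext (heq H)
  rw [this]
  exact hZ

/-- Closed under homomorphic images. -/
def ImageClosed (X : GroupClass) : Prop :=
  ∀ {G H : Type} [Group G] [Group H] (f : G →* H), Function.Surjective f → X G → X H

/-- A product of two classes has a closure property if and only if both factors have it. -/
lemma closed_mul_iff (𝒱 : FF) (X Y : CVar noFilters) :
    Closed 𝒱 (X * Y).1 ↔ Closed 𝒱 X.1 ∧ Closed 𝒱 Y.1 := by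
  obtain ⟨u, hu, hsu⟩ := X.2.2
  obtain ⟨v, hv, hsv⟩ := Y.2.2
  constructor
  · intro h
    exact ⟨left_factor X.2.1 Y.2.1 hv hsv h, right_factor X.2.1 Y.2.1 hu hsu h⟩
  · rintro ⟨h1, h2⟩
    exact closed_mulCls h1 h2

lemma image_mul_iff (X Y : CVar noFilters) :
    ImageClosed (X * Y).1 ↔ ImageClosed X.1 ∧ ImageClosed Y.1 := by
  obtain ⟨u, hu, hsu⟩ := X.2.2
  obtain ⟨v, hv, hsv⟩ := Y.2.2
  constructor
  · intro h
    exact ⟨HCl.left X.2.1 Y.2.1 hv hsv h, HCl.right X.2.1 Y.2.1 hu hsu h⟩
  · rintro ⟨h1, h2⟩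
    exact HCl.mul X.2.1 Y.2.1 h1 h2

lemma closed_one (𝒱 : FF) : Closed 𝒱 (1 : CVar noFilters).1 := closed_oneCls

lemma image_one : ImageClosed (1 : CVar noFilters).1 := by
  intro G H _ _ f hf hG h
  obtain ⟨g, rfl⟩ := hf h
  have h1 : g = 1 := hG g
  rw [h1, map_one]

/-- A property which holds for a product of two elements if and only if it holds for both, and
which holds for `1`, holds for a product of a list if and only if it holds for its members. -/
lemma prod_iff {S : Type*} [Monoid S] (P : S → Prop) (h1 : P 1)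
    (h : ∀ x y, P (x * y) ↔ P x ∧ P y) (l : List S) : P l.prod ↔ ∀ x ∈ l, P x := by
  induction l with
  | nil => simpa using h1
  | cons x l ih => rw [List.prod_cons, h, ih, List.forall_mem_cons]

/-- The semigroup is free. -/
theorem free (𝒰 : FF) :
    ∃ A : Set (CVar 𝒰), (1 : CVar 𝒰) ∉ A ∧
      (∀ X : CVar 𝒰, X ≠ 1 → ∃! l : List (CVar 𝒰), l ≠ [] ∧ (∀ Y ∈ l, Y ∈ A) ∧ l.prod = X) ∧
      ∃ e : FreeMonoid A ≃* CVar 𝒰, ∀ a : A, e (FreeMonoid.of a) = (a : CVar 𝒰) := by
  have key := QV.exists_unique_fact (S := CVar 𝒰) len len_lt equidivisible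
  refine ⟨QV.irr (CVar 𝒰), fun h => h.1 rfl, fun X hX => ?_, QV.free_of_unique _ key⟩
  obtain ⟨l, ⟨h1, h2⟩, h3⟩ := key X
  refine ⟨l, ⟨?_, h1, h2⟩, fun l' h' => h3 l' h'.2⟩
  rintro rfl
  exact hX (by rw [← h2, List.prod_nil])

/-- **Main theorem.** (1) For every class `𝒰` of filters the classes of groups which are closed
under subgroups, cartesian products and reduced products modulo the filters in `𝒰`, and which
satisfy a non-trivial identity, form a free semigroup under multiplication of classes (the class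
of the trivial groups is the identity element): there is a set `A` of such classes such that every
such class, other than the class of the trivial groups, is a product of elements of `A` in exactly
one way.

(2) For the class of all ultrafilters these are exactly the quasivarieties which satisfy a
non-trivial identity.

(3) A product of finitely many classes which are closed under subgroups and products and satisfy
non-trivial identities is closed under reduced products modulo the filters of a class `𝒱` if and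
only if each factor is; it is a quasivariety if and only if each factor is; it is closed under
homomorphic images (a variety) if and only if each factor is. -/
theorem result :
    (∀ 𝒰 : FF, ∃ A : Set (CVar 𝒰), (1 : CVar 𝒰) ∉ A ∧
      (∀ X : CVar 𝒰, X ≠ 1 → ∃! l : List (CVar 𝒰), l ≠ [] ∧ (∀ Y ∈ l, Y ∈ A) ∧ l.prod = X) ∧
      ∃ e : FreeMonoid A ≃* CVar 𝒰, ∀ a : A, e (FreeMonoid.of a) = (a : CVar 𝒰)) ∧
    (∀ X : GroupClass, IsQuasivariety X ↔ Closed ultrafilters X) ∧
    (∀ l : List (CVar noFilters),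
      (∀ 𝒱 : FF, Closed 𝒱 l.prod.1 ↔ ∀ X ∈ l, Closed 𝒱 X.1) ∧
      (IsQuasivariety l.prod.1 ↔ ∀ X ∈ l, IsQuasivariety X.1) ∧
      (ImageClosed l.prod.1 ↔ ∀ X ∈ l, ImageClosed X.1)) := by
  have h3 : ∀ (l : List (CVar noFilters)) (𝒱 : FF),
      Closed 𝒱 l.prod.1 ↔ ∀ X ∈ l, Closed 𝒱 X.1 := fun l 𝒱 =>
    prod_iff (fun X : CVar noFilters => Closed 𝒱 X.1) (closed_one 𝒱) (closed_mul_iff 𝒱) l
  refine ⟨free, quasi_iff, fun l => ⟨h3 l, ?_, prod_iff (fun X : CVar noFilters =>
    ImageClosed X.1) image_one image_mul_iff l⟩⟩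
  rw [quasi_iff, h3 l ultrafilters]
  simp only [quasi_iff]

end Pool.Agent.Results.MP_5bbf46_al.FreeSemigroupsOfClasses
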